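import Pool.Agent.H81R2.OSH.Plane

/-! # From convex bodies to norms; the planar bound (MP_39e5ce_co) -/

set_option autoImplicit false

namespace H81OSH

open Finset
open scoped Pointwise Topology

variable {d : ℕ}

theorem diff_nhds {K : Set (Fin d → ℝ)} (hK : IsBody K) : K - K ∈ 𝓝 (0 : Fin d → ℝ) := by
  obtain ⟨z, hz⟩ := hK.2.2
  have ho : IsOpen ((fun x : Fin d → ℝ => x + z) ⁻¹' interior K) :=
    isOpen_interior.preimage (by fun_prop)
  refine Filter.mem_of_superset (ho.mem_nhds (by simpa using hz)) ?_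
  intro x hx
  exact ⟨x + z, interior_subset hx, z, interior_subset hz, by simp⟩

theorem diff_absorbent {K : Set (Fin d → ℝ)} (hK : IsBody K) : Absorbent ℝ (K - K) :=
  absorbent_nhds_zero (diff_nhds hK)

theorem diff_convex {K : Set (Fin d → ℝ)} (hK : IsBody K) : Convex ℝ (K - K) :=
  hK.1.sub hK.1

theorem diff_balanced {K : Set (Fin d → ℝ)} (hK : IsBody K) : Balanced ℝ (K - K) := by
  rw [balanced_iff_neg_mem (diff_convex hK)]
  rintro x ⟨a, ha, b, hb, rfl⟩
  exact ⟨b, hb, a, ha, by simp⟩

/-- The norm with the unit ball `K - K`. -/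
noncomputable def nrm {K : Set (Fin d → ℝ)} (hK : IsBody K) : Seminorm ℝ (Fin d → ℝ) :=
  gaugeSeminorm (diff_balanced hK) (diff_convex hK) (diff_absorbent hK)

theorem overlap_of_lt {K : Set (Fin d → ℝ)} (hK : IsBody K) {v w : Fin d → ℝ}
    (h : nrm hK (v - w) < 1) : ∃ z, z ∈ interior (tr K v) ∧ z ∈ interior (tr K w) := by
  have h' : gauge (K - K) (v - w) < 1 := h
  obtain ⟨r, hr0, hr1, hr⟩ := exists_lt_of_gauge_lt (diff_absorbent hK) h'
  obtain ⟨y, ⟨a, ha, b, hb, rfl⟩, hy⟩ := hr
  obtain ⟨z, hz⟩ := hK.2.2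
  have hmem : ∀ c ∈ K, r • c + (1 - r) • z ∈ interior K := by
    intro c hc
    exact hK.1.combo_self_interior_mem_interior hc hz hr0.le (by linarith) (by ring)
  refine ⟨r • a + (1 - r) • z + w, ?_, ?_⟩
  · rw [mem_interior_tr]
    have : r • a + (1 - r) • z + w - v = r • b + (1 - r) • z := by
      have h2 : v - w = r • (a - b) := hy.symm
      have h3 : v = w + r • (a - b) := by rw [← h2]; abel
      rw [h3, smul_sub]
      abel
    rw [this]
    exact hmem b hb
  · rw [mem_interior_tr]
    have : r • a + (1 - r) • z + w - w = r • a + (1 - r) • z := by abel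
    rw [this]
    exact hmem a ha

/-- A configuration consists of unit vectors with mutual distances at least one. -/
theorem config_nrm {K : Set (Fin d → ℝ)} (hK : IsBody K) {T : Finset (Fin d → ℝ)}
    (hT : Config K T) : (∀ v ∈ T, nrm hK v = 1) ∧
      (∀ v ∈ T, ∀ w ∈ T, v ≠ w → 1 ≤ nrm hK (v - w)) := by
  constructor
  · intro v hv
    apply le_antisymm
    · obtain ⟨x, hx1, hx2⟩ := hT.touch v hv
      rw [mem_tr] at hx1
      refine gauge_le_one_of_mem ⟨x, hx2, x - v, hx1, by simp⟩
    · by_contra hcon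
      push Not at hcon
      have h2 : nrm hK (v - 0) < 1 := by rwa [sub_zero]
      obtain ⟨z, hz1, hz2⟩ := overlap_of_lt hK h2
      have hd := hT.free v hv
      rw [Set.disjoint_left] at hd
      apply hd hz1
      rw [mem_interior_tr, sub_zero] at hz2
      exact hz2
  · intro v hv w hw hvw
    by_contra hcon
    push Not at hcon
    obtain ⟨z, hz1, hz2⟩ := overlap_of_lt hK hcon
    have hd := hT.pair v hv w hw hvw
    rw [Set.disjoint_left] at hd
    exact hd hz1 hz2

/-- In the plane an open one-sided configuration has at most four members. -/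
theorem config_plane_le {K : Set (Fin 2 → ℝ)} (hK : IsBody K) {T : Finset (Fin 2 → ℝ)}
    (hT : Config K T) : T.card ≤ 4 := by
  obtain ⟨h1, h2⟩ := config_nrm hK hT
  obtain ⟨u, c, -, -, hx, hh⟩ := hT.half
  exact plane_le (nrm hK) u.toLinearMap T h1 (pos_of_half hx hh) h2

end H81OSH
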