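import Pool.Agent.H81R2.OSH.Defs

/-! # Parallelepipeds: at most `(3^d - 1)/2` (MP_39e5ce_co) -/

set_option autoImplicit false

namespace H81OSH

open Finset

/-- A parallelepiped of `ℝ^d`: an affine image of the cube `[-1,1]^d`. -/
def IsParallelepiped {d : ℕ} (K : Set (Fin d → ℝ)) : Prop :=
  ∃ (A : (Fin d → ℝ) ≃L[ℝ] (Fin d → ℝ)) (t : Fin d → ℝ), K = {x | ∀ i, |A (x - t) i| ≤ 1}

theorem card_pos (d : ℕ) (c : Fin d → ℝ) :
    2 * ((Fintype.piFinset (fun _ : Fin d => ({-1, 0, 1} : Finset ℤ))).filter
      (fun r => 0 < ∑ i, c i * (r i : ℝ))).card + 1 ≤ 3 ^ d := by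
  classical
  set R := Fintype.piFinset (fun _ : Fin d => ({-1, 0, 1} : Finset ℤ)) with hR
  have hcR : R.card = 3 ^ d := by simp [hR, Fintype.card_piFinset]
  set P := R.filter (fun r => 0 < ∑ i, c i * (r i : ℝ)) with hP
  set N := R.filter (fun r => ∑ i, c i * (r i : ℝ) < 0) with hN
  have hneg : ∀ r ∈ R, -r ∈ R := by
    intro r hr
    rw [hR, Fintype.mem_piFinset] at hr ⊢
    intro i
    have := hr i
    simp only [mem_insert, mem_singleton, Pi.neg_apply] at this ⊢
    omega
  have hsum : ∀ r : Fin d → ℤ, ∑ i, c i * (((-r) i : ℤ) : ℝ) = - ∑ i, c i * (r i : ℝ) := by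
    intro r
    rw [← Finset.sum_neg_distrib]
    apply Finset.sum_congr rfl
    intro i _
    simp
  have hPN : N.card = P.card := by
    apply Finset.card_nbij' (fun r => -r) (fun r => -r)
    · intro r hr
      have hr' := Finset.mem_filter.1 (Finset.mem_coe.1 hr)
      apply Finset.mem_coe.2
      refine Finset.mem_filter.2 ⟨hneg r hr'.1, ?_⟩
      rw [hsum]
      linarith [hr'.2]
    · intro r hr
      have hr' := Finset.mem_filter.1 (Finset.mem_coe.1 hr)
      apply Finset.mem_coe.2
      refine Finset.mem_filter.2 ⟨hneg r hr'.1, ?_⟩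
      rw [hsum]
      linarith [hr'.2]
    · intro r _
      simp
    · intro r _
      simp
  have hdisj : Disjoint P N := by
    rw [Finset.disjoint_left]
    intro r hr hr'
    have h1 := (Finset.mem_filter.1 hr).2
    have h2 := (Finset.mem_filter.1 hr').2
    linarith
  have h0 : (0 : Fin d → ℤ) ∉ P ∪ N := by
    intro h
    rcases Finset.mem_union.1 h with h | h
    · have := (Finset.mem_filter.1 h).2
      simp at this
    · have := (Finset.mem_filter.1 h).2
      simp at this
  have hsub : insert (0 : Fin d → ℤ) (P ∪ N) ⊆ R := by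
    intro r hr
    rcases Finset.mem_insert.1 hr with h | h
    · rw [h, hR, Fintype.mem_piFinset]
      intro i
      simp
    · rcases Finset.mem_union.1 h with h | h
      · exact (Finset.mem_filter.1 h).1
      · exact (Finset.mem_filter.1 h).1
  have hc := Finset.card_le_card hsub
  rw [Finset.card_insert_of_notMem h0, Finset.card_union_of_disjoint hdisj, hPN, hcR] at hc
  omega

/-- The rounding of a coordinate in the direction of the sign of `c`. -/
noncomputable def rnd (c y : ℝ) : ℤ := if 0 ≤ c then ⌈y⌉ else ⌊y⌋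

theorem rnd_mem {c y : ℝ} (h : |y| ≤ 1) : rnd c y ∈ ({-1, 0, 1} : Finset ℤ) := by
  rw [abs_le] at h
  have h1 : -1 ≤ rnd c y := by
    unfold rnd
    split_ifs
    · have : ((-1 : ℤ) : ℝ) ≤ (⌈y⌉ : ℝ) := by push_cast; linarith [Int.le_ceil y]
      exact_mod_cast this
    · apply Int.le_floor.2
      push_cast
      linarith
  have h2 : rnd c y ≤ 1 := by
    unfold rnd
    split_ifs
    · apply Int.ceil_le.2
      push_cast
      linarith
    · have : (⌊y⌋ : ℝ) ≤ ((1 : ℤ) : ℝ) := by push_cast; linarith [Int.floor_le y]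
      exact_mod_cast this
  simp only [mem_insert, mem_singleton]
  omega

theorem rnd_mul {c y : ℝ} : c * y ≤ c * (rnd c y : ℝ) := by
  unfold rnd
  split_ifs with h
  · exact mul_le_mul_of_nonneg_left (Int.le_ceil y) h
  · exact mul_le_mul_of_nonpos_left (Int.floor_le y) (by linarith)

theorem rnd_inj {c y z : ℝ} (h : rnd c y = rnd c z) : |y - z| < 1 := by
  unfold rnd at h
  rw [abs_lt]
  split_ifs at h with hc
  · have h1 := Int.le_ceil y
    have h2 := Int.ceil_lt_add_one y
    have h3 := Int.le_ceil z
    have h4 := Int.ceil_lt_add_one z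
    rw [h] at h1 h2
    constructor <;> linarith
  · have h1 := Int.floor_le y
    have h2 := Int.lt_floor_add_one y
    have h3 := Int.floor_le z
    have h4 := Int.lt_floor_add_one z
    rw [h] at h1 h2
    constructor <;> linarith

theorem parallelepiped_le {d : ℕ} {K : Set (Fin d → ℝ)} (hK : IsParallelepiped K)
    {T : Finset (Fin d → ℝ)} (hT : Config K T) : 2 * T.card + 1 ≤ 3 ^ d := by
  classical
  obtain ⟨A, t, rfl⟩ := hK
  obtain ⟨u, c₀, -, -, hx, hh⟩ := hT.half
  have hpos := pos_of_half hx hh
  have hle : ∀ v ∈ T, ∀ i, |A v i / 2| ≤ 1 := by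
    intro v hv i
    obtain ⟨x, hx1, hx2⟩ := hT.touch v hv
    rw [mem_tr] at hx1
    have h1 : |A (x - v - t) i| ≤ 1 := hx1 i
    have h2 : |A (x - t) i| ≤ 1 := hx2 i
    have h3 : A v i = A (x - t) i - A (x - v - t) i := by
      simp only [map_sub, Pi.sub_apply]
      ring
    rw [h3]
    rw [abs_le] at h1 h2 ⊢
    constructor <;> linarith [h1.1, h1.2, h2.1, h2.2]
  have hint : ∀ x : Fin d → ℝ, (∀ i, |A (x - t) i| < 1) →
      x ∈ interior {x | ∀ i, |A (x - t) i| ≤ 1} := by
    intro x hx
    have ho : IsOpen {x : Fin d → ℝ | ∀ i, |A (x - t) i| < 1} := by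
      have : {x : Fin d → ℝ | ∀ i, |A (x - t) i| < 1} =
          ⋂ i, {x : Fin d → ℝ | |A (x - t) i| < 1} := by
        ext x; simp
      rw [this]
      apply isOpen_iInter_of_finite
      intro i
      apply isOpen_lt _ continuous_const
      fun_prop
    exact interior_maximal (fun y hy i => (hy i).le) ho hx
  have hsep : ∀ v ∈ T, ∀ w ∈ T, v ≠ w → ∃ i, 1 ≤ |A v i / 2 - A w i / 2| := by
    intro v hv w hw hvw
    by_contra hcon
    push Not at hcon
    have hd := hT.pair v hv w hw hvw
    rw [Set.disjoint_left] at hd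
    apply hd (a := t + (1 / 2 : ℝ) • (v + w))
    · rw [mem_interior_tr]
      apply hint
      intro i
      have h1 : A (t + (1 / 2 : ℝ) • (v + w) - v - t) i = -(A v i / 2 - A w i / 2) := by
        simp only [map_sub, map_add, map_smul, Pi.sub_apply, Pi.add_apply, Pi.smul_apply,
          smul_eq_mul]
        ring
      rw [h1, abs_neg]
      exact hcon i
    · rw [mem_interior_tr]
      apply hint
      intro i
      have h1 : A (t + (1 / 2 : ℝ) • (v + w) - w - t) i = (A v i / 2 - A w i / 2) := by
        simp only [map_sub, map_add, map_smul, Pi.sub_apply, Pi.add_apply, Pi.smul_apply,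
          smul_eq_mul]
        ring
      rw [h1]
      exact hcon i
  set c : Fin d → ℝ := fun i => u (A.symm (Pi.single i 1)) with hc
  have hu : ∀ v, u v = ∑ i, c i * A v i := by
    intro v
    have h1 : v = A.symm (A v) := by simp
    have h2 : A v = ∑ i, (A v i) • (Pi.single i (1 : ℝ) : Fin d → ℝ) := by
      ext j
      simp [Finset.sum_apply, Pi.single_apply]
    conv_lhs => rw [h1, h2]
    rw [map_sum, map_sum]
    apply Finset.sum_congr rfl
    intro i _
    rw [map_smul, map_smul, smul_eq_mul, mul_comm]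
  refine le_trans ?_ (card_pos d c)
  have : T.card ≤ ((Fintype.piFinset (fun _ : Fin d => ({-1, 0, 1} : Finset ℤ))).filter
      (fun r => 0 < ∑ i, c i * (r i : ℝ))).card := by
    apply Finset.card_le_card_of_injOn (fun v i => rnd (c i) (A v i / 2))
    · intro v hv
      have hv' : v ∈ T := hv
      apply Finset.mem_coe.2
      refine Finset.mem_filter.2 ⟨?_, ?_⟩
      · rw [Fintype.mem_piFinset]
        intro i
        exact rnd_mem (hle v hv' i)
      · have h1 : u v / 2 ≤ ∑ i, c i * (rnd (c i) (A v i / 2) : ℝ) := by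
          rw [hu v, Finset.sum_div]
          apply Finset.sum_le_sum
          intro i _
          rw [mul_div_assoc]
          exact rnd_mul
        have h2 := hpos v hv'
        linarith
    · intro v hv w hw hvw
      by_contra hne
      obtain ⟨i, hi⟩ := hsep v hv w hw hne
      have := rnd_inj (congrFun hvw i)
      linarith
  omega

end H81OSH
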