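import Mathlib

/-! # Open one-sided Hadwiger configurations (MP_39e5ce_co): definitions -/

set_option autoImplicit false

namespace H81OSH

/-- The translate `K + v`. -/
def tr {d : ℕ} (K : Set (Fin d → ℝ)) (v : Fin d → ℝ) : Set (Fin d → ℝ) := (fun x => x + v) '' K

/-- A convex body of `ℝ^d`: convex, compact, nonempty interior. -/
def IsBody {d : ℕ} (K : Set (Fin d → ℝ)) : Prop :=
  Convex ℝ K ∧ IsCompact K ∧ (interior K).Nonempty

/-- The translates `K + v`, `v ∈ T`, are pairwise non-overlapping, they all touch `K`, and they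
all lie in one open supporting halfspace of `K`. -/
structure Config {d : ℕ} (K : Set (Fin d → ℝ)) (T : Finset (Fin d → ℝ)) : Prop where
  touch : ∀ v ∈ T, (tr K v ∩ K).Nonempty
  free : ∀ v ∈ T, Disjoint (interior (tr K v)) (interior K)
  pair : ∀ v ∈ T, ∀ w ∈ T, v ≠ w → Disjoint (interior (tr K v)) (interior (tr K w))
  half : ∃ (u : (Fin d → ℝ) →L[ℝ] ℝ) (c : ℝ), u ≠ 0 ∧ (∀ x ∈ K, c ≤ u x) ∧ (∃ x ∈ K, u x = c) ∧
    ∀ v ∈ T, ∀ x ∈ tr K v, c < u x

theorem mem_tr {d : ℕ} {K : Set (Fin d → ℝ)} {v x : Fin d → ℝ} : x ∈ tr K v ↔ x - v ∈ K := by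
  constructor
  · rintro ⟨y, hy, rfl⟩
    simpa using hy
  · intro h
    exact ⟨x - v, h, by simp⟩

theorem interior_tr {d : ℕ} (K : Set (Fin d → ℝ)) (v : Fin d → ℝ) :
    interior (tr K v) = tr (interior K) v := by
  have := (Homeomorph.addRight v).image_interior K
  simpa [tr, Homeomorph.addRight] using this.symm

theorem mem_interior_tr {d : ℕ} {K : Set (Fin d → ℝ)} {v x : Fin d → ℝ} :
    x ∈ interior (tr K v) ↔ x - v ∈ interior K := by
  rw [interior_tr, mem_tr]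

/-- Every vector of a configuration has positive height. -/
theorem pos_of_half {d : ℕ} {K : Set (Fin d → ℝ)} {T : Finset (Fin d → ℝ)}
    {u : (Fin d → ℝ) →L[ℝ] ℝ} {c : ℝ} (hx : ∃ x ∈ K, u x = c)
    (h : ∀ v ∈ T, ∀ x ∈ tr K v, c < u x) : ∀ v ∈ T, 0 < u v := by
  intro v hv
  obtain ⟨x, hxK, hxc⟩ := hx
  have := h v hv (x + v) ⟨x, hxK, rfl⟩
  rw [map_add, hxc] at this
  linarith

/-- A positive functional gives an open supporting halfspace. -/
theorem half_of_pos {d : ℕ} {K : Set (Fin d → ℝ)} (hK : IsBody K) {T : Finset (Fin d → ℝ)}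
    (u : (Fin d → ℝ) →L[ℝ] ℝ) (hu : u ≠ 0) (h : ∀ v ∈ T, 0 < u v) :
    ∃ (u : (Fin d → ℝ) →L[ℝ] ℝ) (c : ℝ), u ≠ 0 ∧ (∀ x ∈ K, c ≤ u x) ∧ (∃ x ∈ K, u x = c) ∧
    ∀ v ∈ T, ∀ x ∈ tr K v, c < u x := by
  have hne : K.Nonempty := hK.2.2.mono interior_subset
  obtain ⟨x, hx, hmin⟩ := hK.2.1.exists_isMinOn hne u.continuous.continuousOn
  refine ⟨u, u x, hu, fun y hy => hmin hy, ⟨x, hx, rfl⟩, ?_⟩
  intro v hv y hy
  rw [mem_tr] at hy
  have h1 : u x ≤ u (y - v) := hmin hy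
  have h2 := h v hv
  rw [map_sub] at h1
  linarith

end H81OSH
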