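import Pool.Agent.H81R2.OSH.Rec

/-! # A convex polytope of `ℝ^3` with fourteen translates (MP_39e5ce_co) -/

set_option autoImplicit false

namespace H81OSH

open Finset

/-- The five functionals (integer version). -/
def gZ (i : Fin 5) (x : Fin 3 → ℤ) : ℤ :=
  match i with
  | 0 => 100 * x 0
  | 1 => 600 * x 1
  | 2 => 10 * (x 2 + 5 * x 0 + 29 * x 1)
  | 3 => 10 * (x 2 + 7 * x 0 + 17 * x 1)
  | 4 => 9 * x 2 + 80 * x 0 + 111 * x 1

/-- The five functionals. -/
def gR (i : Fin 5) (x : Fin 3 → ℝ) : ℝ :=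
  match i with
  | 0 => 100 * x 0
  | 1 => 600 * x 1
  | 2 => 10 * (x 2 + 5 * x 0 + 29 * x 1)
  | 3 => 10 * (x 2 + 7 * x 0 + 17 * x 1)
  | 4 => 9 * x 2 + 80 * x 0 + 111 * x 1

/-- The polytope. -/
def K3 : Set (Fin 3 → ℝ) := {x | ∀ i, |gR i x| ≤ 600}

/-- Half of the fourteen translation vectors. -/
def P3 (j : Fin 14) : Fin 3 → ℤ :=
  match j with
  | 0 => ![-6, -1, 1]
  | 1 => ![-5, -1, 54]
  | 2 => ![-6, -1, 119]
  | 3 => ![1, -1, 1]
  | 4 => ![0, -1, 77]
  | 5 => ![6, -1, 25]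
  | 6 => ![6, 0, 1]
  | 7 => ![0, 0, 60]
  | 8 => ![-6, 0, 84]
  | 9 => ![-6, 0, 24]
  | 10 => ![6, 1, 1]
  | 11 => ![0, 1, 24]
  | 12 => ![-6, 1, 61]
  | 13 => ![-6, 1, 1]

theorem P3_le : ∀ j i, |gZ i (P3 j)| ≤ 600 := by decide

theorem P3_free : ∀ j, ∃ i, 600 ≤ |gZ i (P3 j)| := by decide

theorem P3_sep : ∀ j k, j ≠ k → ∃ i, 600 ≤ |gZ i (fun t => P3 j t - P3 k t)| := by decide

theorem P3_pos : ∀ j, 0 < P3 j 2 := by decide

theorem gR_cast (i : Fin 5) (x : Fin 3 → ℤ) : gR i (fun t => (x t : ℝ)) = (gZ i x : ℝ) := by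
  fin_cases i <;> simp [gR, gZ]

theorem gR_sub (i : Fin 5) (x y : Fin 3 → ℝ) : gR i (x - y) = gR i x - gR i y := by
  fin_cases i <;> simp only [gR, Pi.sub_apply] <;> ring

theorem gR_comb (i : Fin 5) (x y : Fin 3 → ℝ) (a b : ℝ) :
    gR i (a • x + b • y) = a * gR i x + b * gR i y := by
  fin_cases i <;> simp only [gR, Pi.add_apply, Pi.smul_apply, smul_eq_mul] <;> ring

theorem gR_smul (i : Fin 5) (x : Fin 3 → ℝ) (a : ℝ) : gR i (a • x) = a * gR i x := by
  fin_cases i <;> simp only [gR, Pi.smul_apply, smul_eq_mul] <;> ring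

theorem gR_cont (i : Fin 5) : Continuous (gR i) := by
  fin_cases i
  · show Continuous (fun x : Fin 3 → ℝ => 100 * x 0)
    fun_prop
  · show Continuous (fun x : Fin 3 → ℝ => 600 * x 1)
    fun_prop
  · show Continuous (fun x : Fin 3 → ℝ => 10 * (x 2 + 5 * x 0 + 29 * x 1))
    fun_prop
  · show Continuous (fun x : Fin 3 → ℝ => 10 * (x 2 + 7 * x 0 + 17 * x 1))
    fun_prop
  · show Continuous (fun x : Fin 3 → ℝ => 9 * x 2 + 80 * x 0 + 111 * x 1)
    fun_prop

theorem K3_body : IsBody K3 := by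
  refine ⟨?_, ?_, ?_⟩
  · intro x hx y hy a b ha hb hab i
    have h1 := abs_le.1 (hx i)
    have h2 := abs_le.1 (hy i)
    rw [gR_comb, abs_le]
    constructor <;> nlinarith
  · have hcl : IsClosed K3 := by
      have : K3 = ⋂ i, {x : Fin 3 → ℝ | |gR i x| ≤ 600} := by
        ext x; simp [K3]
      rw [this]
      apply isClosed_iInter
      intro i
      exact isClosed_le (gR_cont i).abs continuous_const
    have hsub : K3 ⊆ Set.Icc (fun _ => (-200 : ℝ)) (fun _ => (200 : ℝ)) := by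
      intro x hx
      have h0 := abs_le.1 (hx 0)
      have h1 := abs_le.1 (hx 1)
      have h2 := abs_le.1 (hx 2)
      simp only [gR] at h0 h1 h2
      constructor
      · intro i
        fin_cases i
        · show -200 ≤ x 0
          linarith [h0.1]
        · show -200 ≤ x 1
          linarith [h1.1]
        · show -200 ≤ x 2
          linarith [h0.1, h0.2, h1.1, h1.2, h2.1]
      · intro i
        fin_cases i
        · show x 0 ≤ 200
          linarith [h0.2]
        · show x 1 ≤ 200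
          linarith [h1.2]
        · show x 2 ≤ 200
          linarith [h0.1, h0.2, h1.1, h1.2, h2.2]
    exact isCompact_Icc.of_isClosed_subset hcl hsub
  · refine ⟨0, ?_⟩
    have ho : IsOpen {x : Fin 3 → ℝ | ∀ i, |gR i x| < 600} := by
      have : {x : Fin 3 → ℝ | ∀ i, |gR i x| < 600} = ⋂ i, {x : Fin 3 → ℝ | |gR i x| < 600} := by
        ext x; simp
      rw [this]
      apply isOpen_iInter_of_finite
      intro i
      exact isOpen_lt (gR_cont i).abs continuous_const
    refine interior_maximal (fun y hy i => (hy i).le) ho ?_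
    intro i
    fin_cases i <;> simp [gR]

theorem K3_interior {x : Fin 3 → ℝ} (hx : x ∈ interior K3) (i : Fin 5) : |gR i x| < 600 := by
  have h1 : Filter.Tendsto (fun t : ℝ => t • x) (nhds 1) (nhds x) := by
    have : Continuous (fun t : ℝ => t • x) := by fun_prop
    have h := this.tendsto 1
    simpa using h
  have h2 : ∀ᶠ t in nhds (1 : ℝ), t • x ∈ interior K3 := h1 (isOpen_interior.mem_nhds hx)
  have h3 : ∀ᶠ t in nhdsWithin (1 : ℝ) (Set.Ioi 1), t • x ∈ interior K3 :=
    h2.filter_mono nhdsWithin_le_nhds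
  obtain ⟨t, ht1, ht2⟩ := (h3.and self_mem_nhdsWithin).exists
  have ht3 : (1 : ℝ) < t := ht2
  have h4 : |gR i (t • x)| ≤ 600 := interior_subset ht1 i
  rw [gR_smul, abs_mul, abs_of_pos (by linarith)] at h4
  by_contra hcon
  push Not at hcon
  nlinarith

/-- The translation vectors. -/
def V3 (j : Fin 14) : Fin 3 → ℝ := (2 : ℝ) • (fun t => (P3 j t : ℝ))

theorem gV3 (i : Fin 5) (j : Fin 14) : gR i (V3 j) = 2 * (gZ i (P3 j) : ℝ) := by
  rw [V3, gR_smul, gR_cast]

theorem gV3_sub (i : Fin 5) (j k : Fin 14) :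
    gR i (V3 j - V3 k) = 2 * (gZ i (fun t => P3 j t - P3 k t) : ℝ) := by
  have : V3 j - V3 k = (2 : ℝ) • (fun t => (((P3 j t - P3 k t : ℤ)) : ℝ)) := by
    ext t
    simp only [V3, Pi.sub_apply, Pi.smul_apply, smul_eq_mul, Int.cast_sub]
    ring
  rw [this, gR_smul, gR_cast]

theorem V3_inj : Function.Injective V3 := by
  intro j k h
  by_contra hne
  obtain ⟨i, hi⟩ := P3_sep j k hne
  have h1 := gV3_sub i j k
  rw [h, sub_self] at h1
  have h2 : gR i (0 : Fin 3 → ℝ) = 0 := by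
    fin_cases i <;> simp [gR]
  rw [h2] at h1
  have h3 : (gZ i (fun t => P3 j t - P3 k t) : ℝ) = 0 := by linarith
  have h4 : gZ i (fun t => P3 j t - P3 k t) = 0 := by exact_mod_cast h3
  rw [h4] at hi
  simp at hi

/-- There is a convex body of `ℝ^3` with fourteen translates in an open supporting halfspace. -/
theorem hasConf_three : HasConf 3 14 := by
  classical
  refine ⟨K3, K3_body, Finset.univ.image V3, ?_, ?_⟩
  · refine ⟨?_, ?_, ?_, ?_⟩
    · intro v hv
      obtain ⟨j, -, rfl⟩ := Finset.mem_image.1 hv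
      refine ⟨(1 / 2 : ℝ) • V3 j, ?_, ?_⟩
      · rw [mem_tr]
        intro i
        rw [gR_sub, gR_smul, gV3]
        have h1 : |(gZ i (P3 j) : ℝ)| ≤ 600 := by exact_mod_cast P3_le j i
        have h2 : 1 / 2 * (2 * (gZ i (P3 j) : ℝ)) - 2 * (gZ i (P3 j) : ℝ) =
            - (gZ i (P3 j) : ℝ) := by ring
        rw [h2, abs_neg]
        exact h1
      · intro i
        rw [gR_smul, gV3]
        have h1 : |(gZ i (P3 j) : ℝ)| ≤ 600 := by exact_mod_cast P3_le j i
        have h2 : 1 / 2 * (2 * (gZ i (P3 j) : ℝ)) = (gZ i (P3 j) : ℝ) := by ring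
        rw [h2]
        exact h1
    · intro v hv
      obtain ⟨j, -, rfl⟩ := Finset.mem_image.1 hv
      rw [Set.disjoint_left]
      intro x hx1 hx2
      rw [mem_interior_tr] at hx1
      obtain ⟨i, hi⟩ := P3_free j
      have h1 := abs_lt.1 (K3_interior hx1 i)
      have h2 := abs_lt.1 (K3_interior hx2 i)
      rw [gR_sub, gV3] at h1
      have h3 : (600 : ℝ) ≤ |(gZ i (P3 j) : ℝ)| := by exact_mod_cast hi
      rcases le_abs.1 h3 with h | h <;> linarith [h1.1, h1.2, h2.1, h2.2]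
    · intro v hv w hw hvw
      obtain ⟨j, -, rfl⟩ := Finset.mem_image.1 hv
      obtain ⟨k, -, rfl⟩ := Finset.mem_image.1 hw
      have hjk : j ≠ k := by
        rintro rfl
        exact hvw rfl
      rw [Set.disjoint_left]
      intro x hx1 hx2
      rw [mem_interior_tr] at hx1 hx2
      obtain ⟨i, hi⟩ := P3_sep j k hjk
      have h1 := abs_lt.1 (K3_interior hx1 i)
      have h2 := abs_lt.1 (K3_interior hx2 i)
      have h0 := gV3_sub i j k
      rw [gR_sub] at h1 h2 h0
      have h3 : (600 : ℝ) ≤ |(gZ i (fun t => P3 j t - P3 k t) : ℝ)| := by exact_mod_cast hi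
      rcases le_abs.1 h3 with h | h <;> linarith [h1.1, h1.2, h2.1, h2.2]
    · refine half_of_pos K3_body (ContinuousLinearMap.proj 2) ?_ ?_
      · intro h
        have := congrArg (fun f : (Fin 3 → ℝ) →L[ℝ] ℝ => f (fun _ => 1)) h
        simp at this
      · intro v hv
        obtain ⟨j, -, rfl⟩ := Finset.mem_image.1 hv
        have h1 : (0 : ℝ) < (P3 j 2 : ℝ) := by exact_mod_cast P3_pos j
        simp only [ContinuousLinearMap.proj_apply, V3, Pi.smul_apply, smul_eq_mul]
        linarith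
  · rw [Finset.card_image_of_injective _ V3_inj]
    simp

end H81OSH
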