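import Pool.Agent.H81R2.OSH.Defs

/-! # The plane: at most 4 (MP_39e5ce_co) -/

set_option autoImplicit false

namespace H81OSH

open Finset

/-- The determinant of two vectors of the plane. -/
def dt (v w : Fin 2 → ℝ) : ℝ := v 0 * w 1 - v 1 * w 0

/-- Core of the planar bound, with the base vectors `e`, `f` of maximal determinant. -/
theorem plane_core (p : Seminorm ℝ (Fin 2 → ℝ)) (u : (Fin 2 → ℝ) →ₗ[ℝ] ℝ)
    (S : Finset (Fin 2 → ℝ)) (h1 : ∀ v ∈ S, p v = 1) (hu : ∀ v ∈ S, 0 < u v)
    (hs : ∀ v ∈ S, ∀ w ∈ S, v ≠ w → 1 ≤ p (v - w)) (e f : Fin 2 → ℝ) (he : e ∈ S) (hf : f ∈ S)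
    (hD : dt e f ≠ 0) (hmax : ∀ v ∈ S, ∀ w ∈ S, |dt v w| ≤ |dt e f|) (huf : u f ≤ u e) :
    S.card ≤ 4 := by
  classical
  set a : (Fin 2 → ℝ) → ℝ := fun v => dt v f / dt e f with ha
  set b : (Fin 2 → ℝ) → ℝ := fun v => dt e v / dt e f with hb
  have hdec : ∀ v, v = a v • e + b v • f := by
    intro v
    ext i
    fin_cases i
    · simp only [ha, hb, Fin.zero_eta, Fin.isValue, Pi.add_apply, Pi.smul_apply, smul_eq_mul]
      field_simp
      unfold dt
      ring
    · simp only [ha, hb, Fin.mk_one, Fin.isValue, Pi.add_apply, Pi.smul_apply, smul_eq_mul]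
      field_simp
      unfold dt
      ring
  have habs : 0 < |dt e f| := abs_pos.2 hD
  have ha1 : ∀ v ∈ S, |a v| ≤ 1 := by
    intro v hv
    simp only [ha]
    rw [abs_div, div_le_one habs]
    exact hmax v hv f hf
  have hb1 : ∀ v ∈ S, |b v| ≤ 1 := by
    intro v hv
    simp only [hb]
    rw [abs_div, div_le_one habs]
    exact hmax e he v hv
  have hcomb : ∀ x y : ℝ, p (x • e + y • f) ≤ |x| + |y| := by
    intro x y
    refine le_trans (map_add_le_add p _ _) ?_
    rw [map_smul_eq_mul, map_smul_eq_mul, h1 e he, h1 f hf, Real.norm_eq_abs, Real.norm_eq_abs]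
    linarith
  have hn : ∀ v ∈ S, 1 ≤ |a v| + |b v| := by
    intro v hv
    have h := hcomb (a v) (b v)
    rw [← hdec v, h1 v hv] at h
    exact h
  have hd : ∀ v ∈ S, ∀ w ∈ S, v ≠ w → 1 ≤ |a v - a w| + |b v - b w| := by
    intro v hv w hw hvw
    have h := hcomb (a v - a w) (b v - b w)
    have h2 : (a v - a w) • e + (b v - b w) • f = v - w := by
      conv_rhs => rw [hdec v, hdec w]
      module
    rw [h2] at h
    exact le_trans (hs v hv w hw hvw) h
  have hae : a e = 1 := by simp only [ha]; exact div_self hD
  have hbe : b e = 0 := by simp only [hb]; simp [dt, mul_comm]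
  have haf : a f = 0 := by simp only [ha]; simp [dt, mul_comm]
  have hbf : b f = 1 := by simp only [hb]; exact div_self hD
  have hue : 0 < u e := hu e he
  have huf0 : 0 < u f := hu f hf
  have huv : ∀ v ∈ S, 0 < a v * u e + b v * u f := by
    intro v hv
    have h := hu v hv
    rw [hdec v, map_add, map_smul, map_smul, smul_eq_mul, smul_eq_mul] at h
    exact h
  -- the two exceptional classes
  have hP : (S.filter (fun v => 0 < a v ∧ 0 < b v)).card ≤ 1 := by
    rw [Finset.card_le_one]
    have key : ∀ v ∈ S, 0 < a v → 0 < b v → a v = b v := by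
      intro v hv h2 h3
      have hve : v ≠ e := by
        rintro rfl
        rw [hbe] at h3
        exact lt_irrefl _ h3
      have hvf : v ≠ f := by
        rintro rfl
        rw [haf] at h2
        exact lt_irrefl _ h2
      have e1 := hd e he v hv (Ne.symm hve)
      have e2 := hd f hf v hv (Ne.symm hvf)
      have e3 := abs_le.1 (ha1 v hv)
      have e4 := abs_le.1 (hb1 v hv)
      rw [hae, hbe, abs_of_nonneg (by linarith), abs_of_nonpos (by linarith)] at e1
      rw [haf, hbf, abs_of_nonpos (by linarith), abs_of_nonneg (by linarith)] at e2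
      linarith
    intro v hv w hw
    obtain ⟨hv, h2, h3⟩ := Finset.mem_filter.1 hv
    obtain ⟨hw, h4, h5⟩ := Finset.mem_filter.1 hw
    have h6 := key v hv h2 h3
    have h7 := key w hw h4 h5
    have h8 : v = a v • (e + f) := by
      conv_lhs => rw [hdec v, ← h6]
      module
    have h9 : w = a w • (e + f) := by
      conv_lhs => rw [hdec w, ← h7]
      module
    have h10 : a v * p (e + f) = 1 := by
      have := h1 v hv
      rw [h8, map_smul_eq_mul, Real.norm_eq_abs, abs_of_pos h2] at this
      exact this
    have h11 : a w * p (e + f) = 1 := by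
      have := h1 w hw
      rw [h9, map_smul_eq_mul, Real.norm_eq_abs, abs_of_pos h4] at this
      exact this
    have h12 : a v = a w := by
      have h13 : p (e + f) ≠ 0 := by
        intro h0
        rw [h0, mul_zero] at h10
        exact zero_ne_one h10
      exact mul_right_cancel₀ h13 (by rw [h10, h11])
    rw [h8, h9, h12]
  have hQ : (S.filter (fun v => 0 < a v ∧ b v < 0)).card ≤ 1 := by
    rw [Finset.card_le_one]
    have key : ∀ v ∈ S, 0 < a v → b v < 0 → a v ≤ -b v := by
      intro v hv h2 h3
      have hve : v ≠ e := by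
        rintro rfl
        rw [hbe] at h3
        exact lt_irrefl _ h3
      have e1 := hd e he v hv (Ne.symm hve)
      have e3 := abs_le.1 (ha1 v hv)
      rw [hae, hbe, abs_of_nonneg (by linarith), abs_of_nonneg (by linarith)] at e1
      linarith
    have key2 : ∀ v ∈ S, ∀ w ∈ S, v ≠ w → 0 < a v → b v < 0 → 0 < a w → b w < 0 →
        -b v ≤ -b w → False := by
      intro v hv w hw hvw h2 h3 h4 h5 h6
      have k1 := key v hv h2 h3
      have k2 := key w hw h4 h5
      have e1 := hd v hv w hw hvw
      have e3 := abs_le.1 (ha1 w hw)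
      have e4 := abs_le.1 (hb1 w hw)
      have e5 := hn v hv
      rw [abs_of_pos h2, abs_of_neg h3] at e5
      rw [abs_of_nonneg (show 0 ≤ b v - b w by linarith)] at e1
      rcases le_total (a w) (a v) with h7 | h7
      · rw [abs_of_nonneg (by linarith)] at e1
        linarith
      · rw [abs_of_nonpos (by linarith)] at e1
        have e6 : a w = 1 := by linarith
        have e7 : b w = -1 := by linarith
        have e8 : a v + -b v = 1 := by linarith
        have e9 : v = a v • w + (-b v - a v) • (-f) := by
          conv_lhs => rw [hdec v]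
          conv_rhs => rw [hdec w, e6, e7]
          module
        have e10 : p v ≤ a v + (-b v - a v) := by
          conv_lhs => rw [e9]
          refine le_trans (map_add_le_add p _ _) ?_
          rw [map_smul_eq_mul, map_smul_eq_mul, map_neg_eq_map, h1 w hw, h1 f hf,
            Real.norm_eq_abs, Real.norm_eq_abs, abs_of_pos h2, abs_of_nonneg (by linarith)]
          linarith
        rw [h1 v hv] at e10
        linarith
    intro v hv w hw
    obtain ⟨hv, h2, h3⟩ := Finset.mem_filter.1 hv
    obtain ⟨hw, h4, h5⟩ := Finset.mem_filter.1 hw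
    by_contra hvw
    rcases le_total (-b v) (-b w) with h | h
    · exact key2 v hv w hw hvw h2 h3 h4 h5 h
    · exact key2 w hw v hv (Ne.symm hvw) h4 h5 h2 h3 h
  have hsub : S ⊆ ({e, f} : Finset (Fin 2 → ℝ)) ∪
      (S.filter (fun v => 0 < a v ∧ 0 < b v) ∪ S.filter (fun v => 0 < a v ∧ b v < 0)) := by
    intro v hv
    simp only [Finset.mem_union, Finset.mem_insert, Finset.mem_singleton, Finset.mem_filter]
    by_cases hve : v = e
    · exact Or.inl (Or.inl hve)
    by_cases hvf : v = f
    · exact Or.inl (Or.inr hvf)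
    have hb0 : b v ≠ 0 := by
      intro h
      apply hve
      have h2 := hn v hv
      rw [h, abs_zero, add_zero] at h2
      have h3 := huv v hv
      rw [h, zero_mul, add_zero] at h3
      have h4 : 0 < a v := by
        by_contra hcon
        push Not at hcon
        nlinarith
      rw [abs_of_pos h4] at h2
      have h5 := (abs_le.1 (ha1 v hv)).2
      have h6 : a v = 1 := le_antisymm h5 h2
      rw [hdec v, h, h6]
      simp
    have hav : 0 < a v := by
      by_contra hcon
      push Not at hcon
      have h3 := huv v hv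
      have h4 : 0 < b v := by
        by_contra hcon2
        push Not at hcon2
        nlinarith
      rcases eq_or_lt_of_le hcon with h5 | h5
      · -- `a v = 0`
        apply hvf
        have h2 := hn v hv
        rw [h5, abs_zero, zero_add, abs_of_pos h4] at h2
        have h6 : b v = 1 := le_antisymm (abs_le.1 (hb1 v hv)).2 h2
        rw [hdec v, h5, h6]
        simp
      · have e1 := hd f hf v hv (Ne.symm hvf)
        have e4 := abs_le.1 (hb1 v hv)
        rw [haf, hbf, abs_of_nonneg (by linarith), abs_of_nonneg (by linarith)] at e1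
        nlinarith
    right
    rcases lt_or_gt_of_ne hb0 with h | h
    · right
      exact ⟨hv, hav, h⟩
    · left
      exact ⟨hv, hav, h⟩
  have hc := Finset.card_le_card hsub
  have h5 := Finset.card_union_le ({e, f} : Finset (Fin 2 → ℝ))
      (S.filter (fun v => 0 < a v ∧ 0 < b v) ∪ S.filter (fun v => 0 < a v ∧ b v < 0))
  have h6 := Finset.card_union_le (S.filter (fun v => 0 < a v ∧ 0 < b v))
    (S.filter (fun v => 0 < a v ∧ b v < 0))
  have h7 : ({e, f} : Finset (Fin 2 → ℝ)).card ≤ 2 := Finset.card_le_two
  omega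

/-- At most four unit vectors with mutual distances `≥ 1` lie in an open half plane. -/
theorem plane_le (p : Seminorm ℝ (Fin 2 → ℝ)) (u : (Fin 2 → ℝ) →ₗ[ℝ] ℝ)
    (S : Finset (Fin 2 → ℝ)) (h1 : ∀ v ∈ S, p v = 1) (hu : ∀ v ∈ S, 0 < u v)
    (hs : ∀ v ∈ S, ∀ w ∈ S, v ≠ w → 1 ≤ p (v - w)) : S.card ≤ 4 := by
  classical
  rcases S.eq_empty_or_nonempty with rfl | hne
  · simp
  obtain ⟨⟨e, f⟩, hef, hmax⟩ := Finset.exists_max_image (S ×ˢ S) (fun q => |dt q.1 q.2|)
    (hne.product hne)
  have he : e ∈ S := (Finset.mem_product.1 hef).1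
  have hf : f ∈ S := (Finset.mem_product.1 hef).2
  have hmax' : ∀ v ∈ S, ∀ w ∈ S, |dt v w| ≤ |dt e f| := by
    intro v hv w hw
    exact hmax (v, w) (Finset.mem_product.2 ⟨hv, hw⟩)
  by_cases hD : dt e f = 0
  · -- all vectors are parallel
    have hall : ∀ v ∈ S, ∀ w ∈ S, v = w := by
      intro v hv w hw
      have h2 : dt v w = 0 := by
        have := hmax' v hv w hw
        rw [hD, abs_zero] at this
        exact abs_eq_zero.1 (le_antisymm this (abs_nonneg _))
      have hux : ∀ x : Fin 2 → ℝ, u x = x 0 * u (Pi.single 0 1) + x 1 * u (Pi.single 1 1) := by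
        intro x
        have : x = x 0 • (Pi.single 0 (1 : ℝ) : Fin 2 → ℝ) + x 1 • Pi.single 1 (1 : ℝ) := by
          ext i
          fin_cases i <;> simp
        conv_lhs => rw [this, map_add, map_smul, map_smul, smul_eq_mul, smul_eq_mul]
      have h3 : u w • v = u v • w := by
        unfold dt at h2
        ext i
        fin_cases i
        · simp only [Fin.zero_eta, Fin.isValue, Pi.smul_apply, smul_eq_mul]
          rw [hux v, hux w]
          linear_combination (u (Pi.single 1 1)) * h2
        · simp only [Fin.mk_one, Fin.isValue, Pi.smul_apply, smul_eq_mul]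
          rw [hux v, hux w]
          linear_combination (-u (Pi.single 0 1)) * h2
      have h4 : u w = u v := by
        have := congrArg p h3
        rw [map_smul_eq_mul, map_smul_eq_mul, h1 v hv, h1 w hw, Real.norm_eq_abs,
          Real.norm_eq_abs, abs_of_pos (hu w hw), abs_of_pos (hu v hv)] at this
        linarith
      rw [h4] at h3
      exact smul_right_injective _ (hu v hv).ne' h3
    have : S.card ≤ 1 := Finset.card_le_one.2 hall
    omega
  · rcases le_total (u f) (u e) with h | h
    · exact plane_core p u S h1 hu hs e f he hf hD hmax' h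
    · have hsw : dt f e = - dt e f := by unfold dt; ring
      refine plane_core p u S h1 hu hs f e hf he ?_ ?_ h
      · rw [hsw]
        exact neg_ne_zero.2 hD
      · intro v hv w hw
        rw [hsw, abs_neg]
        exact hmax' v hv w hw

end H81OSH
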