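import Pool.Agent.H81R2.OSH.Defs

/-! # Cylinders: from `k` in dimension `d` to `3k+1` in dimension `d+1` (MP_39e5ce_co) -/

set_option autoImplicit false

namespace H81OSH

open Finset

/-- There is a convex body of `ℝ^d` with an open one-sided configuration of `k` translates. -/
def HasConf (d k : ℕ) : Prop :=
  ∃ K : Set (Fin d → ℝ), IsBody K ∧ ∃ T : Finset (Fin d → ℝ), Config K T ∧ T.card = k

variable {d : ℕ}

/-- The cylinder over `K`. -/
def cyl (K : Set (Fin d → ℝ)) : Set (Fin (d + 1) → ℝ) := {x | |x 0| ≤ 1 ∧ Fin.tail x ∈ K}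

theorem cont_cons : Continuous (fun q : ℝ × (Fin d → ℝ) => (Fin.cons q.1 q.2 : Fin (d + 1) → ℝ)) := by
  apply continuous_pi
  intro i
  refine Fin.cases ?_ ?_ i
  · simpa using continuous_fst
  · intro j
    simp only [Fin.cons_succ]
    exact (continuous_apply j).comp continuous_snd

theorem cont_tail : Continuous (fun x : Fin (d + 1) → ℝ => Fin.tail x) := by
  apply continuous_pi
  intro i
  exact continuous_apply _

theorem open_tail : IsOpenMap (fun x : Fin (d + 1) → ℝ => Fin.tail x) := by
  have hc : Continuous (fun x : Fin (d + 1) → ℝ => Fin.tail x) := cont_tail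
  intro U hU
  rw [isOpen_iff_mem_nhds]
  rintro _ ⟨x, hx, rfl⟩
  have h1 : Continuous (fun y : Fin d → ℝ => (Fin.cons (x 0) y : Fin (d + 1) → ℝ)) :=
    cont_cons.comp (by fun_prop : Continuous (fun y : Fin d → ℝ => (x 0, y)))
  refine Filter.mem_of_superset ((hU.preimage h1).mem_nhds ?_) ?_
  · show Fin.cons (x 0) (Fin.tail x) ∈ U
    rw [Fin.cons_self_tail]
    exact hx
  · intro y hy
    exact ⟨Fin.cons (x 0) y, hy, by simp⟩

theorem cyl_body {K : Set (Fin d → ℝ)} (hK : IsBody K) : IsBody (cyl K) := by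
  refine ⟨?_, ?_, ?_⟩
  · intro x hx y hy a b ha hb hab
    refine ⟨?_, ?_⟩
    · have h1 := abs_le.1 hx.1
      have h2 := abs_le.1 hy.1
      show |a * x 0 + b * y 0| ≤ 1
      rw [abs_le]
      constructor <;> nlinarith
    · have : Fin.tail (a • x + b • y) = a • Fin.tail x + b • Fin.tail y := by
        ext i
        simp [Fin.tail]
      rw [this]
      exact hK.1 hx.2 hy.2 ha hb hab
  · have : cyl K = (fun q : ℝ × (Fin d → ℝ) => (Fin.cons q.1 q.2 : Fin (d + 1) → ℝ)) ''
        (Set.Icc (-1) 1 ×ˢ K) := by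
      ext x
      constructor
      · rintro ⟨h1, h2⟩
        exact ⟨(x 0, Fin.tail x), ⟨abs_le.1 h1, h2⟩, by simp⟩
      · rintro ⟨⟨s, y⟩, ⟨h1, h2⟩, rfl⟩
        exact ⟨by simpa using abs_le.2 h1, by simpa using h2⟩
    rw [this]
    exact (isCompact_Icc.prod hK.2.1).image cont_cons
  · obtain ⟨z, hz⟩ := hK.2.2
    refine ⟨(Fin.cons (0 : ℝ) z : Fin (d + 1) → ℝ), ?_⟩
    have ho : IsOpen ({x : Fin (d + 1) → ℝ | |x 0| < 1} ∩ (fun x => Fin.tail x) ⁻¹' interior K) := by
      apply IsOpen.inter
      · exact isOpen_lt (by fun_prop) continuous_const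
      · exact isOpen_interior.preimage cont_tail
    refine interior_maximal ?_ ho ?_
    · rintro x ⟨h1, h2⟩
      exact ⟨(show |x 0| < 1 from h1).le, interior_subset h2⟩
    · refine ⟨by simp, ?_⟩
      have h : Fin.tail (Fin.cons (0 : ℝ) z : Fin (d + 1) → ℝ) ∈ interior K := by
        rw [Fin.tail_cons]
        exact hz
      exact h

theorem cyl_interior {K : Set (Fin d → ℝ)} {x : Fin (d + 1) → ℝ} (hx : x ∈ interior (cyl K)) :
    |x 0| < 1 ∧ Fin.tail x ∈ interior K := by
  constructor
  · have h1 : IsOpenMap (fun y : Fin (d + 1) → ℝ => y 0) := isOpenMap_eval 0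
    have h2 := h1.image_interior_subset (cyl K)
    have h3 : x 0 ∈ interior ((fun y : Fin (d + 1) → ℝ => y 0) '' cyl K) := h2 ⟨x, hx, rfl⟩
    have h4 : (fun y : Fin (d + 1) → ℝ => y 0) '' cyl K ⊆ Set.Icc (-1) 1 := by
      rintro _ ⟨y, hy, rfl⟩
      exact abs_le.1 hy.1
    have h5 := interior_mono h4 h3
    rw [interior_Icc] at h5
    exact abs_lt.2 h5
  · have h2 := open_tail.image_interior_subset (cyl K)
    have h3 : Fin.tail x ∈ interior ((fun y : Fin (d + 1) → ℝ => Fin.tail y) '' cyl K) :=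
      h2 ⟨x, hx, rfl⟩
    refine interior_mono ?_ h3
    rintro _ ⟨y, hy, rfl⟩
    exact hy.2

theorem exists_small {T : Finset (Fin d → ℝ)} {u : (Fin d → ℝ) →L[ℝ] ℝ}
    (h : ∀ v ∈ T, 0 < u v) : ∃ ε : ℝ, 0 < ε ∧ ∀ v ∈ T, 2 * ε < u v := by
  classical
  induction T using Finset.induction_on with
  | empty => exact ⟨1, one_pos, by simp⟩
  | insert a s has ih =>
    obtain ⟨ε, h0, h1⟩ := ih (fun v hv => h v (Finset.mem_insert_of_mem hv))
    have ha := h a (Finset.mem_insert_self a s)
    refine ⟨min ε (u a / 4), lt_min h0 (by linarith), ?_⟩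
    intro v hv
    rcases Finset.mem_insert.1 hv with rfl | hv
    · have := min_le_right ε (u v / 4)
      linarith
    · have := min_le_left ε (u a / 4)
      have := h1 v hv
      linarith

theorem config_cyl {d : ℕ} {K : Set (Fin d → ℝ)} (hK : IsBody K) {T : Finset (Fin d → ℝ)}
    (hT : Config K T) : ∃ T' : Finset (Fin (d + 1) → ℝ), Config (cyl K) T' ∧
      T'.card = 3 * T.card + 1 := by
  classical
  obtain ⟨u, c, hu, hc, hx, hh⟩ := hT.half
  have hpos := pos_of_half hx hh
  obtain ⟨ε, hε, hεT⟩ := exists_small hpos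
  set em : (Fin d → ℝ) × ℝ → (Fin (d + 1) → ℝ) := fun q => Fin.cons q.2 q.1 with hem
  have hinj : Function.Injective em := by
    rintro ⟨v, s⟩ ⟨w, t⟩ hvw
    simp only [hem] at hvw
    have := Fin.cons_injective2 hvw
    rw [this.1, this.2]
  set T' : Finset (Fin (d + 1) → ℝ) :=
    insert (em (0, 2)) ((T ×ˢ ({-2, 0, 2} : Finset ℝ)).image em) with hT'
  have h0T : (0 : Fin d → ℝ) ∉ T := by
    intro h
    have := hpos 0 h
    simp at this
  -- description of the members
  have hmem : ∀ w ∈ T', ∃ v s, w = em (v, s) ∧ (s = -2 ∨ s = 0 ∨ s = 2) ∧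
      (v ∈ T ∨ (v = 0 ∧ s = 2)) := by
    intro w hw
    rcases Finset.mem_insert.1 hw with rfl | hw
    · exact ⟨0, 2, rfl, Or.inr (Or.inr rfl), Or.inr ⟨rfl, rfl⟩⟩
    · obtain ⟨⟨v, s⟩, hq, rfl⟩ := Finset.mem_image.1 hw
      obtain ⟨hv, hs⟩ := Finset.mem_product.1 hq
      refine ⟨v, s, rfl, ?_, Or.inl hv⟩
      simpa using hs
  have hcard : T'.card = 3 * T.card + 1 := by
    rw [hT', Finset.card_insert_of_notMem, Finset.card_image_of_injective _ hinj,
      Finset.card_product]
    · have : ({-2, 0, 2} : Finset ℝ).card = 3 := by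
        rw [Finset.card_insert_of_notMem, Finset.card_insert_of_notMem, Finset.card_singleton]
        · simp
        · simp only [Finset.mem_insert, Finset.mem_singleton]
          norm_num
      rw [this]
      ring
    · intro h
      obtain ⟨⟨v, s⟩, hq, he⟩ := Finset.mem_image.1 h
      have := hinj he
      obtain ⟨hv, hs⟩ := Finset.mem_product.1 hq
      have h1 : v = 0 := congrArg Prod.fst this
      rw [h1] at hv
      exact h0T hv
  have htail : ∀ (x : Fin (d + 1) → ℝ) (v : Fin d → ℝ) (s : ℝ),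
      Fin.tail (x - em (v, s)) = Fin.tail x - v := by
    intro x v s
    ext i
    simp [hem, Fin.tail]
  have hzero : ∀ (x : Fin (d + 1) → ℝ) (v : Fin d → ℝ) (s : ℝ), (x - em (v, s)) 0 = x 0 - s := by
    intro x v s
    simp [hem]
  have hKne : K.Nonempty := hK.2.2.mono interior_subset
  refine ⟨T', ?_, hcard⟩
  refine ⟨?_, ?_, ?_, ?_⟩
  · -- touching
    intro w hw
    obtain ⟨v, s, rfl, hs, hv⟩ := hmem w hw
    have hs2 : |s / 2| ≤ 1 := by
      rcases hs with rfl | rfl | rfl <;> norm_num
    have hs3 : |s / 2 - s| ≤ 1 := by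
      rcases hs with rfl | rfl | rfl <;> norm_num [abs_le]
    have hy : ∃ y, y ∈ K ∧ y - v ∈ K := by
      rcases hv with hv | ⟨rfl, -⟩
      · obtain ⟨y, h1, h2⟩ := hT.touch v hv
        rw [mem_tr] at h1
        exact ⟨y, h2, h1⟩
      · obtain ⟨y, hy⟩ := hKne
        exact ⟨y, hy, by simpa using hy⟩
    obtain ⟨y, h1, h2⟩ := hy
    refine ⟨em (y, s / 2), ?_, ?_⟩
    · rw [mem_tr]
      refine ⟨?_, ?_⟩
      · rw [hzero]
        simpa [hem] using hs3
      · rw [htail]
        simpa [hem] using h2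
    · exact ⟨by simpa [hem] using hs2, by simpa [hem] using h1⟩
  · -- free
    intro w hw
    obtain ⟨v, s, rfl, hs, hv⟩ := hmem w hw
    rw [Set.disjoint_left]
    intro x hx1 hx2
    rw [mem_interior_tr] at hx1
    have h1 := cyl_interior hx1
    have h2 := cyl_interior hx2
    rw [hzero, htail] at h1
    by_cases hs0 : s = 0
    · subst hs0
      rcases hv with hv | ⟨-, h⟩
      · have := hT.free v hv
        rw [Set.disjoint_left] at this
        exact this (mem_interior_tr.2 h1.2) h2.2
      · norm_num at h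
    · have h3 := abs_lt.1 h1.1
      have h4 := abs_lt.1 h2.1
      rcases hs with rfl | rfl | rfl
      · linarith [h3.1, h3.2, h4.1, h4.2]
      · exact hs0 rfl
      · linarith [h3.1, h3.2, h4.1, h4.2]
  · -- pairs
    intro w hw w' hw' hne
    obtain ⟨v, s, rfl, hs, hv⟩ := hmem w hw
    obtain ⟨v', s', rfl, hs', hv'⟩ := hmem w' hw'
    rw [Set.disjoint_left]
    intro x hx1 hx2
    rw [mem_interior_tr] at hx1 hx2
    have h1 := cyl_interior hx1
    have h2 := cyl_interior hx2
    rw [hzero, htail] at h1 h2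
    by_cases hss : s = s'
    · subst hss
      have hvv : v ≠ v' := by
        rintro rfl
        exact hne rfl
      rcases hv with hv | ⟨rfl, -⟩
      · rcases hv' with hv' | ⟨rfl, -⟩
        · have := hT.pair v hv v' hv' hvv
          rw [Set.disjoint_left] at this
          exact this (mem_interior_tr.2 h1.2) (mem_interior_tr.2 h2.2)
        · have := hT.free v hv
          rw [Set.disjoint_left] at this
          refine this (mem_interior_tr.2 h1.2) ?_
          simpa using h2.2
      · rcases hv' with hv' | ⟨rfl, -⟩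
        · have := hT.free v' hv'
          rw [Set.disjoint_left] at this
          refine this (mem_interior_tr.2 h2.2) ?_
          simpa using h1.2
        · exact hvv rfl
    · have h3 := abs_lt.1 h1.1
      have h4 := abs_lt.1 h2.1
      rcases hs with rfl | rfl | rfl <;> rcases hs' with rfl | rfl | rfl <;>
        first
          | exact hss rfl
          | linarith [h3.1, h3.2, h4.1, h4.2]
  · -- halfspace
    set tl : (Fin (d + 1) → ℝ) →L[ℝ] (Fin d → ℝ) :=
      ContinuousLinearMap.pi (fun i => ContinuousLinearMap.proj i.succ) with htl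
    have htlx : ∀ x, tl x = Fin.tail x := by
      intro x
      ext i
      simp [htl, Fin.tail]
    set u' : (Fin (d + 1) → ℝ) →L[ℝ] ℝ := u.comp tl + ε • ContinuousLinearMap.proj 0 with hu'
    have hu'x : ∀ x, u' x = u (Fin.tail x) + ε * x 0 := by
      intro x
      simp [hu', htlx]
    have hem' : ∀ v s, u' (em (v, s)) = u v + ε * s := by
      intro v s
      rw [hu'x]
      simp [hem]
    refine half_of_pos (cyl_body hK) u' ?_ ?_
    · intro h
      have h1 := hem' 0 2
      rw [h] at h1
      simp at h1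
      exact hε.ne' h1
    · intro w hw
      obtain ⟨v, s, rfl, hs, hv⟩ := hmem w hw
      rw [hem']
      rcases hv with hv | ⟨rfl, rfl⟩
      · have := hεT v hv
        rcases hs with rfl | rfl | rfl <;> linarith
      · rw [map_zero]
        linarith

theorem hasConf_succ {d k : ℕ} (h : HasConf d k) : HasConf (d + 1) (3 * k + 1) := by
  obtain ⟨K, hK, T, hT, rfl⟩ := h
  obtain ⟨T', h1, h2⟩ := config_cyl hK hT
  exact ⟨cyl K, cyl_body hK, T', h1, h2⟩

end H81OSH
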